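import Pool.Agent.Results.MP_c32cfc_al.TwoTransitive

namespace Pool.Agent.Hp21.C32
open Pool.Agent.Results.MP_c32cfc_al.TwoTransitive
variable {F : Type*} [Field F] {V : Type*} [AddCommGroup V] [Module F V]

/-- no line elements -/
def NoLine (K : Subgroup (V ≃ₗ[F] V)) : Prop :=
  ∀ (a b : V) (h : V ≃ₗ[F] V), h ∈ NL K a b → ∀ v0 ∈ Submodule.span F {a, b},
    ∃ c : F, h v0 = c • v0

/-- independence of three vectors -/
def Ind3 (F : Type*) {V : Type*} [Field F] [AddCommGroup V] [Module F V] (x y z : V) : Prop :=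
  ∀ r s t : F, r • x + s • y + t • z = 0 → r = 0 ∧ s = 0 ∧ t = 0

theorem mulinv_apply {u w : V ≃ₗ[F] V} (v : V) : (u * w⁻¹) (w v) = u v := by
  rw [LinearEquiv.mul_apply, LinearEquiv.coe_inv, LinearEquiv.symm_apply_apply]

/-- two lines through a point -/
theorem pair {K : Subgroup (V ≃ₗ[F] V)} (hN : NoLine K) {x y z : V} (hxyz : Ind3 F x y z)
    {u u' : V ≃ₗ[F] V} (hu : u ∈ K) (hu' : u' ∈ K)
    (h1 : ∀ v, ∃ r s : F, u v = v + (r • x + s • y)) (h1x : u x = x) (h1y : u y = y)
    (h2 : ∀ v, ∃ r s : F, u' v = v + (r • x + s • z)) (h2x : u' x = x) (h2z : u' z = z)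
    {p1 p2 q1 q2 : F} (hp : u z = z + (p1 • x + p2 • y)) (hq : u' y = y + (q1 • x + q2 • z)) :
    p2 = 0 ∨ q2 = 0 := by
  by_contra hcon
  push Not at hcon
  obtain ⟨hp2, hq2⟩ := hcon
  set p := p1 • x + p2 • y with hpdef
  set p' := q1 • x + q2 • z with hp'def
  have up : u p = p := by rw [hpdef, map_add, map_smul, map_smul, h1x, h1y]
  have up' : u p' = p' + q2 • p := by
    rw [hp'def, map_add, map_smul, map_smul, h1x, hp]; module
  have u'p' : u' p' = p' := by rw [hp'def, map_add, map_smul, map_smul, h2x, h2z]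
  have u'p : u' p = p + p2 • p' := by
    rw [hpdef, map_add, map_smul, map_smul, h2x, hq]; module
  have hc : ∀ w, (u * u' * (u' * u)⁻¹) (u' (u w)) = u (u' w) := fun w => mulinv_apply (w := u' * u) w
  have hcN : u * u' * (u' * u)⁻¹ ∈ NL K p p' := by
    refine ⟨K.mul_mem (K.mul_mem hu hu') (K.inv_mem (K.mul_mem hu' hu)), fun v => ?_⟩
    obtain ⟨w, hw⟩ : ∃ w, u' (u w) = v := ⟨(u' * u)⁻¹ v, by
      change (u' * u) ((u' * u)⁻¹ v) = v
      rw [LinearEquiv.coe_inv, LinearEquiv.apply_symm_apply]⟩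
    rw [← hw, hc]
    obtain ⟨r, s, hrs⟩ := h1 w
    obtain ⟨r', s', hrs'⟩ := h2 w
    have e : u (u' w) - u' (u w) = s' • p - s • p' := by
      rw [hrs', hrs, map_add, map_add, map_add, map_add, map_smul, map_smul, map_smul, map_smul,
        hrs', hrs, h1x, h2x, hp, hq]
      module
    rw [e]
    exact Submodule.sub_mem _ (Submodule.smul_mem _ _ (Submodule.subset_span (by simp)))
      (Submodule.smul_mem _ _ (Submodule.subset_span (by simp)))
  obtain ⟨c, hcp⟩ := hN _ _ _ hcN p (Submodule.subset_span (by simp))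
  set t := p2 * q2 with ht
  have ht0 : t ≠ 0 := mul_ne_zero hp2 hq2
  have hw : u' (u ((1 + t) • p - p2 • p')) = p := by
    rw [map_sub, map_smul, map_smul, up, up', map_sub, map_smul, map_smul, map_add u' p', map_smul,
      u'p, u'p', ht]
    module
  have hcp' : (u * u' * (u' * u)⁻¹) p = (1 + t + t ^ 2) • p + (t * p2) • p' := by
    rw [← hw, hc, hw, map_sub, map_smul, map_smul, u'p, u'p', map_sub, map_smul, map_smul,
      map_add u p, map_smul, up, up', ht]
    module
  rw [hcp] at hcp'
  have h3 := hxyz ((1 + t + t ^ 2 - c) * p1 + (t * p2) * q1) ((1 + t + t ^ 2 - c) * p2)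
    ((t * p2) * q2) (by
      have : (1 + t + t ^ 2 - c) • p + (t * p2) • p' = 0 := by
        rw [sub_smul, hcp']; module
      rw [← this, hpdef, hp'def]; module)
  exact mul_ne_zero (mul_ne_zero ht0 hp2) hq2 h3.2.2

theorem exists_ind3 [FiniteDimensional F V] (h3 : 3 ≤ Module.finrank F V) :
    ∃ x y z : V, Ind3 F x y z := by
  obtain ⟨f, hf⟩ := exists_linearIndependent_of_le_finrank (R := F) (M := V) h3
  refine ⟨f 0, f 1, f 2, fun r s t hrst => ?_⟩
  have := Fintype.linearIndependent_iff.1 hf ![r, s, t] (by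
    rw [Fin.sum_univ_three]; simpa using hrst)
  exact ⟨this 0, this 1, this 2⟩

/-- the type of element excluded in the first step -/
structure Quad (K : Subgroup (V ≃ₗ[F] V)) (a b : V) (u : V ≃ₗ[F] V) : Prop where
  mem : u ∈ K
  im : ∀ v, ∃ r s : F, u v = v + (r • a + s • b)
  fa : u a = a
  fb : u b = b
  ker : ∀ v, u v = v → ∃ r s : F, v = r • a + s • b

theorem Quad.conj {K : Subgroup (V ≃ₗ[F] V)} {a b c d : V} {u : V ≃ₗ[F] V} (h : Quad K a b u)
    {g : V ≃ₗ[F] V} (hg : g ∈ K) {α β : F} (hα : α ≠ 0) (hβ : β ≠ 0) (hga : g a = α • c)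
    (hgb : g b = β • d) : Quad K c d (g * u * g⁻¹) := by
  have hgc : g⁻¹ c = α⁻¹ • a := inv_apply_eq' (by
    rw [map_smul, hga, smul_smul, inv_mul_cancel₀ hα, one_smul])
  have hgd : g⁻¹ d = β⁻¹ • b := inv_apply_eq' (by
    rw [map_smul, hgb, smul_smul, inv_mul_cancel₀ hβ, one_smul])
  have hgg : ∀ v, g (g⁻¹ v) = v := fun v => by rw [LinearEquiv.coe_inv, LinearEquiv.apply_symm_apply]
  refine ⟨K.mul_mem (K.mul_mem hg h.mem) (K.inv_mem hg), fun v => ?_, ?_, ?_, fun v hv => ?_⟩
  · obtain ⟨r, s, hrs⟩ := h.im (g⁻¹ v)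
    refine ⟨r * α, s * β, ?_⟩
    rw [LinearEquiv.mul_apply, LinearEquiv.mul_apply, hrs, map_add, hgg, map_add, map_smul,
      map_smul, hga, hgb]
    module
  · rw [LinearEquiv.mul_apply, LinearEquiv.mul_apply, hgc, map_smul, h.fa, map_smul, hga,
      smul_smul, inv_mul_cancel₀ hα, one_smul]
  · rw [LinearEquiv.mul_apply, LinearEquiv.mul_apply, hgd, map_smul, h.fb, map_smul, hgb,
      smul_smul, inv_mul_cancel₀ hβ, one_smul]
  · obtain ⟨r, s, hrs⟩ := h.ker (g⁻¹ v) (by
      apply g.injective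
      rw [hgg]; exact hv)
    refine ⟨r * α, s * β, ?_⟩
    rw [← hgg v, hrs, map_add, map_smul, map_smul, hga, hgb]
    module

theorem noQuad [FiniteDimensional F V] (h3 : 3 ≤ Module.finrank F V)
    {K : Subgroup (V ≃ₗ[F] V)} (hK : Two K) (hN : NoLine K) {a b : V} (hab : Ind F a b)
    {u : V ≃ₗ[F] V} (hu : Quad K a b u) : False := by
  obtain ⟨e1, e2, e3, he⟩ := exists_ind3 (F := F) (V := V) h3
  have hex : ∀ c d : V, Ind F c d → ∃ w, Quad K c d w := by
    intro c d hcd
    obtain ⟨g, hg, α, β, hα, hβ, h1, h2⟩ := hK.two a b c d hab hcd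
    exact ⟨_, hu.conj hg hα hβ h1 h2⟩
  have i12 : Ind F e1 e2 := by
    intro s t hst
    have := he s t 0 (by rw [← hst]; module)
    exact ⟨this.1, this.2.1⟩
  have i13 : Ind F e1 e3 := by
    intro s t hst
    have := he s 0 t (by rw [← hst]; module)
    exact ⟨this.1, this.2.2⟩
  obtain ⟨u1, hu1⟩ := hex _ _ i12
  obtain ⟨u2, hu2⟩ := hex _ _ i13
  obtain ⟨a1, a2, ha⟩ := hu1.im e3
  obtain ⟨b1, b3, hb⟩ := hu2.im e2
  have ha0 : a1 ≠ 0 ∨ a2 ≠ 0 := by
    by_contra hcon
    push Not at hcon
    rw [hcon.1, hcon.2] at ha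
    obtain ⟨r, s, hrs⟩ := hu1.ker e3 (by rw [ha]; module)
    have := he r s (-1) (by
      have : r • e1 + s • e2 + (-1 : F) • e3 = (r • e1 + s • e2) - e3 := by module
      rw [this, ← hrs, sub_self])
    exact one_ne_zero (neg_eq_zero.1 this.2.2)
  have hb0 : b1 ≠ 0 ∨ b3 ≠ 0 := by
    by_contra hcon
    push Not at hcon
    rw [hcon.1, hcon.2] at hb
    obtain ⟨r, s, hrs⟩ := hu2.ker e2 (by rw [hb]; module)
    have := he r (-1) s (by
      have : r • e1 + (-1 : F) • e2 + s • e3 = (r • e1 + s • e3) - e2 := by module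
      rw [this, ← hrs, sub_self])
    exact one_ne_zero (neg_eq_zero.1 this.2.1)
  -- choose r with (r e1 + e2) not proportional to a1 e1 + a2 e2
  obtain ⟨r, hr⟩ : ∃ r : F, a1 - r * a2 ≠ 0 := by
    by_cases h : a1 = 0
    · refine ⟨1, ?_⟩
      rcases ha0 with h' | h'
      · exact absurd h h'
      · rw [h]; simpa using h'
    · exact ⟨0, by simpa using h⟩
  obtain ⟨t, ht⟩ : ∃ t : F, b1 - t * b3 ≠ 0 := by
    by_cases h : b1 = 0
    · refine ⟨1, ?_⟩
      rcases hb0 with h' | h'
      · exact absurd h h'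
      · rw [h]; simpa using h'
    · exact ⟨0, by simpa using h⟩
  have ixz : Ind F (r • e1 + e2) (t • e1 + e3) := by
    intro p q hpq
    have := he (p * r + q * t) p q (by rw [← hpq]; module)
    exact ⟨this.2.1, this.2.2⟩
  obtain ⟨u3, hu3⟩ := hex _ _ ixz
  obtain ⟨c1, c2, hc⟩ := hu3.im e1
  have key1 : c2 = 0 := by
    have h1 := pair hN (x := r • e1 + e2) (y := e1) (z := t • e1 + e3) (u := u1) (u' := u3)
      (by
        intro p q s hpqs
        have := he (p * r + q + s * t) p s (by rw [← hpqs]; module)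
        refine ⟨this.2.1, ?_, this.2.2⟩
        have h := this.1
        rw [this.2.1, this.2.2] at h
        simpa using h) hu1.mem hu3.mem
      (fun v => by
        obtain ⟨p, q, hpq⟩ := hu1.im v
        exact ⟨q, p - q * r, by rw [hpq]; module⟩)
      (by rw [map_add, map_smul, hu1.fa, hu1.fb]) hu1.fa hu3.im hu3.fa hu3.fb
      (p1 := a2) (p2 := a1 - r * a2) (q1 := c1) (q2 := c2)
      (by rw [map_add, map_smul, hu1.fa, ha]; module) hc
    rcases h1 with h | h
    · exact absurd h hr
    · exact h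
  have key2 : c1 = 0 := by
    have h1 := pair hN (x := t • e1 + e3) (y := e1) (z := r • e1 + e2) (u := u2) (u' := u3)
      (by
        intro p q s hpqs
        have := he (p * t + q + s * r) s p (by rw [← hpqs]; module)
        refine ⟨this.2.2, ?_, this.2.1⟩
        have h := this.1
        rw [this.2.1, this.2.2] at h
        simpa using h) hu2.mem hu3.mem
      (fun v => by
        obtain ⟨p, q, hpq⟩ := hu2.im v
        exact ⟨q, p - q * t, by rw [hpq]; module⟩)
      (by rw [map_add, map_smul, hu2.fa, hu2.fb]) hu2.fa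
      (fun v => by
        obtain ⟨p, q, hpq⟩ := hu3.im v
        exact ⟨q, p, by rw [hpq]; module⟩) hu3.fb hu3.fa
      (p1 := b3) (p2 := b1 - t * b3) (q1 := c2) (q2 := c1)
      (by rw [map_add, map_smul, hu2.fa, hb]; module) (by rw [hc]; module)
    rcases h1 with h | h
    · exact absurd h ht
    · exact h
  rw [key1, key2] at hc
  obtain ⟨p, q, hpq⟩ := hu3.ker e1 (by rw [hc]; module)
  have := he (p * r + q * t - 1) p q (by
    have : (p * r + q * t - 1) • e1 + p • e2 + q • e3 = (p • (r • e1 + e2) + q • (t • e1 + e3)) - e1 := by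
      module
    rw [this, ← hpq, sub_self])
  have h := this.1
  rw [this.2.1, this.2.2] at h
  simp at h

theorem fr_le [FiniteDimensional F V] (N : V →ₗ[F] V) (U : Submodule F V) :
    Module.finrank F U ≤ Module.finrank F (U.map N) + Module.finrank F (LinearMap.ker N) := by
  have h := LinearMap.finrank_range_add_finrank_ker (N.domRestrict U)
  rw [LinearMap.range_domRestrict] at h
  have h2 : Module.finrank F (LinearMap.ker (N.domRestrict U)) ≤
      Module.finrank F (LinearMap.ker N) := by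
    let f : LinearMap.ker (N.domRestrict U) →ₗ[F] LinearMap.ker N :=
      LinearMap.codRestrict _ ((U.subtype).domRestrict (LinearMap.ker (N.domRestrict U)))
        (fun c => c.2)
    apply LinearMap.finrank_le_finrank_of_injective (f := f)
    intro x y hxy
    exact Subtype.ext (Subtype.ext (congrArg (fun z : LinearMap.ker N => (z : V)) hxy))
  omega

theorem finrank_span_pair {a b : V} (hab : Ind F a b) :
    Module.finrank F (Submodule.span F {a, b}) = 2 := by
  have li : LinearIndependent F ![a, b] := LinearIndependent.pair_iff.2 hab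
  have := finrank_span_eq_card li
  have hr : Set.range ![a, b] = {a, b} := by
    ext x; simp [Matrix.range_cons, Matrix.range_empty]; exact or_comm
  rw [hr] at this
  simpa using this

/-- an element of K with cube of u - 1 zero is trivial -/
theorem unip [FiniteDimensional F V] (h4 : Module.finrank F V = 4)
    {K : Subgroup (V ≃ₗ[F] V)} (hK : Two K) (hN : NoLine K) {u : V ≃ₗ[F] V} (hu : u ∈ K)
    (N : V →ₗ[F] V) (hNu : ∀ v, u v = v + N v) (h3 : ∀ v, N (N (N v)) = 0) (v : V) : N v = 0 := by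
  by_contra hv
  by_cases hI : ∃ x y, Ind F (N x) (N y)
  · obtain ⟨x, y, hxy⟩ := hI
    have hle : Submodule.span F {N x, N y} ≤ LinearMap.range N := by
      rw [Submodule.span_le]
      rintro z (rfl | rfl)
      · exact ⟨x, rfl⟩
      · exact ⟨y, rfl⟩
    have hrk := LinearMap.finrank_range_add_finrank_ker N
    have h1 := fr_le N ⊤
    have h2 := fr_le N (Submodule.map N ⊤)
    have h3' := fr_le N (Submodule.map N (Submodule.map N ⊤))
    have h0 : Submodule.map N (Submodule.map N (Submodule.map N ⊤)) = ⊥ := by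
      rw [Submodule.eq_bot_iff]
      rintro _ ⟨_, ⟨_, ⟨z, -, rfl⟩, rfl⟩, rfl⟩
      exact h3 z
    rw [h0, finrank_bot] at h3'
    rw [finrank_top] at h1
    have h2xy := finrank_span_pair hxy
    have heq : Submodule.span F {N x, N y} = LinearMap.range N := by
      apply Submodule.eq_of_le_of_finrank_le hle
      omega
    have hr2 : Module.finrank F (LinearMap.range N) = 2 := by rw [← heq]; exact h2xy
    have huNL : u ∈ NL K (N x) (N y) := ⟨hu, fun v => by
      rw [heq, hNu, add_sub_cancel_left]; exact ⟨v, rfl⟩⟩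
    have hNN : ∀ v, N (N v) = 0 := by
      intro v
      obtain ⟨c, hc⟩ := hN _ _ _ huNL (N v) (by rw [heq]; exact ⟨v, rfl⟩)
      have hc' : N (N v) = (c - 1) • N v := by
        rw [hNu] at hc
        rw [sub_smul, one_smul, ← hc]; abel
      have h5 := h3 v
      rw [hc', map_smul, hc', smul_smul] at h5
      rcases smul_eq_zero.1 h5 with h | h
      · have hc1 : c - 1 = 0 := by
          rcases mul_eq_zero.1 h with h | h <;> exact h
        rw [hc', hc1, zero_smul]
      · rw [h, map_zero]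
    have hker : LinearMap.range N = LinearMap.ker N := by
      apply Submodule.eq_of_le_of_finrank_le
      · rintro _ ⟨z, rfl⟩
        exact hNN z
      · omega
    refine noQuad (by omega) hK hN hxy (u := u) ⟨hu, fun v => ?_, ?_, ?_, fun v hv => ?_⟩
    · have : N v ∈ Submodule.span F {N x, N y} := by rw [heq]; exact ⟨v, rfl⟩
      obtain ⟨r, s, hrs⟩ := Submodule.mem_span_pair.1 this
      exact ⟨r, s, by rw [hNu, hrs]⟩
    · rw [hNu, hNN, add_zero]
    · rw [hNu, hNN, add_zero]
    · have : v ∈ LinearMap.ker N := by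
        rw [LinearMap.mem_ker]
        have := hNu v
        rw [hv] at this
        exact left_eq_add.1 this
      rw [← hker, ← heq] at this
      obtain ⟨r, s, hrs⟩ := Submodule.mem_span_pair.1 this
      exact ⟨r, s, hrs.symm⟩
  · push Not at hI
    have huNL : u ∈ NL K (N v) v := ⟨hu, fun w => by
      obtain ⟨c, hc⟩ := not_ind hv (hI v w)
      rw [hNu, add_sub_cancel_left, hc]
      exact Submodule.smul_mem _ _ (Submodule.subset_span (by simp))⟩
    obtain ⟨c, hc⟩ := hN _ _ _ huNL v (Submodule.subset_span (by simp))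
    have hc' : N v = (c - 1) • v := by
      rw [hNu] at hc
      rw [sub_smul, one_smul, ← hc]; abel
    have h5 := h3 v
    rw [hc', map_smul, hc', map_smul, map_smul, hc'] at h5
    simp only [smul_smul] at h5
    rcases smul_eq_zero.1 h5 with h | h
    · have hc1 : c - 1 = 0 := by
        rcases mul_eq_zero.1 h with h | h
        · exact h
        · rcases mul_eq_zero.1 h with h | h <;> exact h
      exact hv (by rw [hc', hc1, zero_smul])
    · exact hv (by rw [h, map_zero])

end Pool.Agent.Hp21.C32
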