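import Pool.Agent.Hp21.C32Four

namespace Pool.Agent.Hp21.C32
open Pool.Agent.Results.MP_c32cfc_al.TwoTransitive
variable {F : Type*} [Field F] {V : Type*} [AddCommGroup V] [Module F V]

section mat
variable {X Y Xi Yi : Matrix (Fin 2) (Fin 2) F}

theorem mat_sq (X : Matrix (Fin 2) (Fin 2) F) : X * X = X.trace • X - X.det • (1 : Matrix _ _ F) := by
  ext i j
  fin_cases i <;> fin_cases j <;>
    simp [Matrix.mul_apply, Fin.sum_univ_two, Matrix.trace_fin_two, Matrix.det_fin_two] <;> ring

theorem det_ne (hX : X * Xi = 1) : X.det ≠ 0 := by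
  intro h0
  have := congrArg Matrix.det hX
  rw [Matrix.det_mul, h0] at this
  simp at this

theorem mat_c (hY : Y * Yi = 1) (hX : X * Xi = 1) {c : F} (h : Y * X = c • (X * Y)) :
    c = 1 ∨ (c = -1 ∧ c ≠ 1 ∧ X.trace = 0) := by
  have hdX := det_ne hX
  have hdY := det_ne hY
  have h1 := congrArg Matrix.det h
  rw [Matrix.det_smul, Matrix.det_mul, Matrix.det_mul, Fintype.card_fin] at h1
  have h2 : c ^ 2 = 1 := by
    have : (c ^ 2 - 1) * (X.det * Y.det) = 0 := by linear_combination -h1
    rcases mul_eq_zero.1 this with h | h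
    · exact sub_eq_zero.1 h
    · exact absurd h (mul_ne_zero hdX hdY)
  by_cases hc : c = 1
  · exact Or.inl hc
  · right
    have hc1 : c = -1 := by
      have : (c - 1) * (c + 1) = 0 := by linear_combination h2
      rcases mul_eq_zero.1 this with h | h
      · exact absurd (sub_eq_zero.1 h) hc
      · exact eq_neg_of_add_eq_zero_left h
    refine ⟨hc1, hc, ?_⟩
    have h3 : Y * X * Yi = c • X := by
      rw [h, Matrix.smul_mul, Matrix.mul_assoc, hY, Matrix.mul_one]
    have h4 := congrArg Matrix.trace h3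
    rw [Matrix.trace_mul_cycle, mul_eq_one_comm.1 hY, Matrix.one_mul, Matrix.trace_smul,
      smul_eq_mul] at h4
    have : (1 - c) * X.trace = 0 := by linear_combination h4
    rcases mul_eq_zero.1 this with h | h
    · exact absurd (sub_eq_zero.1 h).symm hc
    · exact h

theorem mat_comm (hns : ∀ c : F, X ≠ c • (1 : Matrix _ _ F)) (h : X * Y = Y * X) :
    ∃ α β : F, Y = α • (1 : Matrix _ _ F) + β • X := by
  have e := fun i j => congrFun (congrFun h i) j
  simp only [Matrix.mul_apply, Fin.sum_univ_two] at e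
  have e00 := e 0 0
  have e01 := e 0 1
  have e10 := e 1 0
  have e11 := e 1 1
  by_cases h1 : X 0 1 = 0
  · by_cases h2 : X 1 0 = 0
    · have h3 : X 0 0 - X 1 1 ≠ 0 := by
        intro h3
        apply hns (X 0 0)
        ext i j
        fin_cases i <;> fin_cases j <;> simp [h1, h2]
        exact (sub_eq_zero.1 h3).symm
      refine ⟨Y 0 0 - (Y 0 0 - Y 1 1) / (X 0 0 - X 1 1) * X 0 0,
        (Y 0 0 - Y 1 1) / (X 0 0 - X 1 1), ?_⟩
      have y01 : Y 0 1 = 0 := by
        have : (X 0 0 - X 1 1) * Y 0 1 = 0 := by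
          rw [h1] at e01; linear_combination e01
        exact (mul_eq_zero.1 this).resolve_left h3
      have y10 : Y 1 0 = 0 := by
        have : (X 0 0 - X 1 1) * Y 1 0 = 0 := by
          rw [h2] at e10; linear_combination -e10
        exact (mul_eq_zero.1 this).resolve_left h3
      ext i j
      fin_cases i <;> fin_cases j <;> simp [h1, h2, y01, y10]
      field_simp
      ring
    · refine ⟨Y 0 0 - Y 1 0 / X 1 0 * X 0 0, Y 1 0 / X 1 0, ?_⟩
      have y01 : Y 0 1 = Y 1 0 / X 1 0 * X 0 1 := by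
        field_simp
        linear_combination -e00
      have y11 : Y 1 1 = Y 0 0 - Y 1 0 / X 1 0 * X 0 0 + Y 1 0 / X 1 0 * X 1 1 := by
        field_simp
        linear_combination -e10
      ext i j
      fin_cases i <;> fin_cases j <;> simp [y01, y11]
      field_simp
  · refine ⟨Y 0 0 - Y 0 1 / X 0 1 * X 0 0, Y 0 1 / X 0 1, ?_⟩
    have y10 : Y 1 0 = Y 0 1 / X 0 1 * X 1 0 := by
      field_simp
      linear_combination e00
    have y11 : Y 1 1 = Y 0 0 - Y 0 1 / X 0 1 * X 0 0 + Y 0 1 / X 0 1 * X 1 1 := by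
      field_simp
      linear_combination e01
    ext i j
    fin_cases i <;> fin_cases j <;> simp [y10, y11]
    field_simp

theorem mat_tri (hX : X * Xi = 1) (hns : ∀ c : F, X ≠ c • (1 : Matrix _ _ F)) (h : X * Y = Y * X)
    (htr : Y.trace = X.trace) (hdet : Y.det = X.det) :
    Y * Xi = 1 ∨ Y * X = X.det • (1 : Matrix _ _ F) ∨ (Y * Xi - 1) * (Y * Xi - 1) = 0 := by
  obtain ⟨α, β, hY⟩ := mat_comm hns h
  have ht : 2 * α + β * X.trace = X.trace := by
    have := congrArg Matrix.trace hY
    rw [htr, Matrix.trace_add, Matrix.trace_smul, Matrix.trace_smul, Matrix.trace_one,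
      Fintype.card_fin, smul_eq_mul, smul_eq_mul] at this
    push_cast at this
    linear_combination -this
  have hd : α ^ 2 + α * β * X.trace + β ^ 2 * X.det = X.det := by
    have h1 : (α • (1 : Matrix (Fin 2) (Fin 2) F) + β • X).det
        = α ^ 2 + α * β * X.trace + β ^ 2 * X.det := by
      simp only [Matrix.det_fin_two, Matrix.trace_fin_two, Matrix.add_apply, Matrix.smul_apply,
        smul_eq_mul, Matrix.one_apply]
      simp
      ring
    rw [← h1, ← hY, hdet]
  have hsq := mat_sq X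
  set τ := X.trace
  set δ := X.det
  by_cases hβ : β = 1
  · have h2 : 2 * α = 0 := by rw [hβ] at ht; linear_combination ht
    have h1 : α * (α + τ) = 0 := by rw [hβ] at hd; linear_combination hd
    by_cases hα : α = 0
    · left
      rw [hY, hα, hβ, zero_smul, one_smul, zero_add, hX]
    · right; left
      have h3 := (mul_eq_zero.1 h1).resolve_left hα
      have h20 : (2 : F) = 0 := (mul_eq_zero.1 h2).resolve_right hα
      have h4 : Y * X = (α + τ) • X - δ • (1 : Matrix _ _ F) := by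
        rw [hY, hβ, one_smul, Matrix.add_mul, hsq, Matrix.smul_mul, Matrix.one_mul]
        module
      have h5 : -δ = δ := by linear_combination -δ * h20
      rw [h4, h3, zero_smul, zero_sub, ← neg_smul, h5]
  · have hβ' : 1 - β ≠ 0 := sub_ne_zero.2 (Ne.symm hβ)
    obtain ⟨b, hb⟩ : ∃ b, α = b * (1 - β) := ⟨α / (1 - β), by field_simp⟩
    have hb2 : 2 * b = τ := by
      have : (2 * b - τ) * (1 - β) = 0 := by rw [hb] at ht; linear_combination ht
      exact sub_eq_zero.1 ((mul_eq_zero.1 this).resolve_right hβ')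
    have hb3 : (b ^ 2 - δ) * ((1 - β) * (1 + β)) = 0 := by
      rw [hb, ← hb2] at hd; linear_combination hd
    rcases mul_eq_zero.1 hb3 with h1 | h1
    · right; right
      have hP : (X - b • (1 : Matrix _ _ F)) * (X - b • (1 : Matrix _ _ F)) = 0 := by
        have : (X - b • (1 : Matrix _ _ F)) * (X - b • (1 : Matrix _ _ F)) =
            X * X - (2 * b) • X + (b ^ 2) • (1 : Matrix _ _ F) := by
          simp only [Matrix.sub_mul, Matrix.mul_sub, Matrix.smul_mul, Matrix.mul_smul,
            Matrix.one_mul, Matrix.mul_one]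
          module
        rw [this, hsq, hb2, sub_eq_zero.1 h1]
        module
      have hXiX : Xi * X = 1 := mul_eq_one_comm.1 hX
      have hc : Xi * (X - b • (1 : Matrix _ _ F)) = (X - b • (1 : Matrix _ _ F)) * Xi := by
        rw [Matrix.mul_sub, Matrix.sub_mul, hX, hXiX]; simp
      have hYX : Y * Xi - 1 = (β - 1) • ((X - b • (1 : Matrix _ _ F)) * Xi) := by
        rw [hY, hb, Matrix.sub_mul, hX, Matrix.add_mul, Matrix.smul_mul β, hX, Matrix.smul_mul,
          Matrix.smul_mul, Matrix.one_mul]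
        module
      rw [hYX, Matrix.smul_mul, Matrix.mul_smul, ← Matrix.mul_assoc, Matrix.mul_assoc _ Xi, hc,
        ← Matrix.mul_assoc, hP]
      simp
    · right; left
      have hβ1 : β = -1 := by
        have := (mul_eq_zero.1 h1).resolve_left hβ'
        linear_combination this
      rw [hY, hβ1, Matrix.add_mul, Matrix.smul_mul, Matrix.smul_mul, Matrix.one_mul, hsq, hb, hβ1,
        ← hb2]
      module

end mat

section rel

/-- the map k induces the matrix M modulo the kernel of ρ -/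
def Rel (ρ : V →ₗ[F] (Fin 2 → F)) (k : V ≃ₗ[F] V) (M : Matrix (Fin 2) (Fin 2) F) : Prop :=
  ∀ v, ρ (k v) = M.mulVec (ρ v)

variable {ρ : V →ₗ[F] (Fin 2 → F)}

theorem Rel.mul {k k' : V ≃ₗ[F] V} {M M' : Matrix (Fin 2) (Fin 2) F} (h : Rel ρ k M)
    (h' : Rel ρ k' M') : Rel ρ (k * k') (M * M') := fun v => by
  rw [LinearEquiv.mul_apply, h, h', Matrix.mulVec_mulVec]

theorem Rel.unique (hρ : Function.Surjective ρ) {k : V ≃ₗ[F] V} {M M' : Matrix (Fin 2) (Fin 2) F}
    (h : Rel ρ k M) (h' : Rel ρ k M') : M = M' := by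
  apply Matrix.ext_of_mulVec_single
  intro i
  obtain ⟨v, hv⟩ := hρ (Pi.single i 1)
  rw [← hv, ← h, ← h']

theorem Rel.one : Rel ρ 1 1 := fun v => by simp

theorem Rel.inv (hρ : Function.Surjective ρ) {k : V ≃ₗ[F] V} {M M' : Matrix (Fin 2) (Fin 2) F}
    (h : Rel ρ k M) (h' : Rel ρ k⁻¹ M') : M * M' = 1 := by
  have h1 := h.mul h'
  rw [mul_inv_cancel] at h1
  exact h1.unique hρ Rel.one

theorem exists_rel (hρ : Function.Surjective ρ) {k : V ≃ₗ[F] V}
    (hk : ∀ v, ρ v = 0 → ρ (k v) = 0) : ∃ M, Rel ρ k M := by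
  obtain ⟨σ, hσ⟩ := LinearMap.exists_rightInverse_of_surjective ρ (LinearMap.range_eq_top.2 hρ)
  refine ⟨LinearMap.toMatrix' (ρ ∘ₗ (k : V →ₗ[F] V) ∘ₗ σ), fun v => ?_⟩
  rw [LinearMap.toMatrix'_mulVec]
  have h1 : ρ (v - σ (ρ v)) = 0 := by
    rw [map_sub, sub_eq_zero]
    exact (LinearMap.congr_fun hσ (ρ v)).symm
  have h2 := hk _ h1
  rw [map_sub, map_sub, sub_eq_zero] at h2
  exact h2

theorem exists_rho [FiniteDimensional F V] (h4 : Module.finrank F V = 4) {a b : V}
    (hab : Ind F a b) : ∃ ρ : V →ₗ[F] (Fin 2 → F), Function.Surjective ρ ∧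
      ∀ v, ρ v = 0 ↔ ∃ r s : F, v = r • a + s • b := by
  have h1 := Submodule.finrank_quotient_add_finrank (Submodule.span F {a, b})
  rw [finrank_span_pair hab, h4] at h1
  let e : (V ⧸ Submodule.span F {a, b}) ≃ₗ[F] (Fin 2 → F) :=
    LinearEquiv.ofFinrankEq _ _ (by rw [Module.finrank_fin_fun]; omega)
  refine ⟨e.toLinearMap ∘ₗ (Submodule.span F {a, b}).mkQ, ?_, fun v => ?_⟩
  · exact e.surjective.comp (Submodule.mkQ_surjective _)
  · rw [LinearMap.comp_apply]
    change e _ = 0 ↔ _
    rw [LinearEquiv.map_eq_zero_iff, Submodule.mkQ_apply, Submodule.Quotient.mk_eq_zero,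
      Submodule.mem_span_pair]
    constructor
    · rintro ⟨r, s, h⟩
      exact ⟨r, s, h.symm⟩
    · rintro ⟨r, s, h⟩
      exact ⟨r, s, h.symm⟩

end rel
end Pool.Agent.Hp21.C32
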