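import Pool.Agent.Hp21.C32Four2

namespace Pool.Agent.Hp21.C32
open Pool.Agent.Results.MP_c32cfc_al.TwoTransitive
variable {F : Type*} [Field F] {V : Type*} [AddCommGroup V] [Module F V]

variable {K : Subgroup (V ≃ₗ[F] V)} {ρ : V →ₗ[F] (Fin 2 → F)} {a b : V}

theorem rel_smul {k : V ≃ₗ[F] V} {c : F} (h : Rel ρ k (c • (1 : Matrix _ _ F))) (v : V) :
    ρ (k v) = c • ρ v := by
  rw [h, Matrix.smul_mulVec, Matrix.one_mulVec]

theorem s0a (hK : Two K) (hN : NoLine K) (hρ : Function.Surjective ρ)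
    (hρ0 : ∀ v, ρ v = 0 ↔ ∃ r s : F, v = r • a + s • b) {k : V ≃ₗ[F] V} (hk : k ∈ K) {c : F}
    (h : Rel ρ k (c • (1 : Matrix _ _ F))) (r s : F) :
    ∃ d : F, k (r • a + s • b) = d • (r • a + s • b) := by
  have hc : c ≠ 0 := by
    rintro rfl
    obtain ⟨v, hv⟩ := hρ (Pi.single 0 1)
    have h1 := rel_smul h (k⁻¹ v)
    have h2 : k (k⁻¹ v) = v := by rw [LinearEquiv.coe_inv, LinearEquiv.apply_symm_apply]
    rw [h2, hv, zero_smul] at h1
    have := congrFun h1 0
    simp at this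
  obtain ⟨z, hz, hzv⟩ := hK.scal c⁻¹ (inv_ne_zero hc)
  obtain ⟨d, hd⟩ := hN a b (z * k) ⟨K.mul_mem hz hk, fun v => by
    have : ρ ((z * k) v - v) = 0 := by
      rw [map_sub, LinearEquiv.mul_apply, hzv, map_smul, rel_smul h, smul_smul,
        inv_mul_cancel₀ hc, one_smul, sub_self]
    obtain ⟨r, s, hrs⟩ := (hρ0 _).1 this
    rw [Submodule.mem_span_pair]
    exact ⟨r, s, hrs.symm⟩⟩ (r • a + s • b) (Submodule.mem_span_pair.2 ⟨r, s, rfl⟩)
  refine ⟨c * d, ?_⟩
  rw [LinearEquiv.mul_apply, hzv] at hd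
  rw [mul_smul, ← hd, smul_smul, mul_inv_cancel₀ hc, one_smul]

theorem s0b (hab : Ind F a b) (hN : NoLine K) (hρ : Function.Surjective ρ)
    (hρ0 : ∀ v, ρ v = 0 ↔ ∃ r s : F, v = r • a + s • b) {k : V ≃ₗ[F] V} (hk : k ∈ K)
    (ha : k a = a) (hb : k b = b) : ∃ c : F, Rel ρ k (c • (1 : Matrix _ _ F)) := by
  obtain ⟨c0, hc0⟩ := hρ (Pi.single 0 1)
  obtain ⟨c1, hc1⟩ := hρ (Pi.single 1 1)
  let N : V →ₗ[F] V := (k : V →ₗ[F] V) - LinearMap.id
  have hNv : ∀ v, N v = k v - v := fun v => rfl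
  have hkv : ∀ v, k v = v + N v := fun v => by rw [hNv]; abel
  have hNa : N a = 0 := by rw [hNv, ha, sub_self]
  have hNb : N b = 0 := by rw [hNv, hb, sub_self]
  have hN0 : ∀ v, ρ v = 0 → N v = 0 := by
    intro v hv
    obtain ⟨r, s, rfl⟩ := (hρ0 v).1 hv
    rw [map_add, map_smul, map_smul, hNa, hNb]; simp
  have hcoord : ∀ v, ρ (v - (ρ v 0 • c0 + ρ v 1 • c1)) = 0 := by
    intro v
    rw [map_sub, map_add, map_smul, map_smul, hc0, hc1]
    ext i
    fin_cases i <;> simp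
  have hNc : ∀ v, N v = ρ v 0 • N c0 + ρ v 1 • N c1 := by
    intro v
    have := hN0 _ (hcoord v)
    rw [map_sub, map_add, map_smul, map_smul, sub_eq_zero] at this
    exact this
  have hkNL : k ∈ NL K (N c0) (N c1) := ⟨hk, fun v => by
    rw [← hNv, hNc v, Submodule.mem_span_pair]; exact ⟨_, _, rfl⟩⟩
  by_cases hI : Ind F (N c0) (N c1)
  · obtain ⟨d0, hd0⟩ := hN _ _ _ hkNL (N c0) (Submodule.subset_span (by simp))
    obtain ⟨d1, hd1⟩ := hN _ _ _ hkNL (N c1) (Submodule.subset_span (by simp))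
    obtain ⟨d2, hd2⟩ := hN _ _ _ hkNL (N c0 + N c1) (Submodule.add_mem _
      (Submodule.subset_span (by simp)) (Submodule.subset_span (by simp)))
    have h1 := hI (d0 - d2) (d1 - d2) (by
      rw [sub_smul, sub_smul, ← hd0, ← hd1]
      have : k (N c0) - d2 • N c0 + (k (N c1) - d2 • N c1) = k (N c0 + N c1) - d2 • (N c0 + N c1) := by
        rw [map_add]; module
      rw [this, hd2, sub_self])
    have e0 : d0 = d2 := sub_eq_zero.1 h1.1
    have e1 : d1 = d2 := sub_eq_zero.1 h1.2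
    rw [e0] at hd0
    rw [e1] at hd1
    have hkN : ∀ v, k (N v) = d2 • N v := by
      intro v
      rw [hNc v, map_add, map_smul, map_smul, hd0, hd1]; module
    have hNN : ∀ v, N (N v) = (d2 - 1) • N v := by
      intro v
      rw [hNv (N v), hkN, sub_smul, one_smul]
    have hker : ∀ v, N v = 0 → ρ v = 0 := by
      intro v hv
      rw [hNc v] at hv
      have := hI _ _ hv
      ext i
      fin_cases i
      · exact this.1
      · exact this.2
    refine ⟨d2, fun v => ?_⟩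
    rw [Matrix.smul_mulVec, Matrix.one_mulVec]
    have h2 : N (k v - d2 • v) = 0 := by
      rw [hkv v, map_sub, map_add, hNN, map_smul]; module
    have h3 := hker _ h2
    rw [map_sub, map_smul, sub_eq_zero] at h3
    exact h3
  · have ha0 : a ≠ 0 := by
      rintro rfl
      exact one_ne_zero (hab 1 0 (by simp)).1
    -- rank at most one
    have hp : ∃ p : V, ∀ v, ∃ c : F, N v = c • p := by
      by_cases h0 : N c0 = 0
      · exact ⟨N c1, fun v => ⟨ρ v 1, by rw [hNc v, h0]; simp⟩⟩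
      · obtain ⟨c, hc⟩ := not_ind h0 hI
        exact ⟨N c0, fun v => ⟨ρ v 0 + ρ v 1 * c, by rw [hNc v, hc]; module⟩⟩
    obtain ⟨p, hp⟩ := hp
    have hall : ∀ w, ∃ c : F, k w = c • w := by
      intro w
      refine hN p w k ⟨hk, fun v => ?_⟩ w (Submodule.subset_span (by simp))
      obtain ⟨c, hc⟩ := hp v
      rw [← hNv, hc]
      exact Submodule.smul_mem _ _ (Submodule.subset_span (by simp))
    refine ⟨1, fun v => ?_⟩
    rw [one_smul, Matrix.one_mulVec]
    by_cases hav : Ind F a v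
    · obtain ⟨c, hc⟩ := hall v
      obtain ⟨c', hc'⟩ := hall (a + v)
      rw [map_add, ha, hc] at hc'
      have := hav (1 - c') (c - c') (by
        have : (1 - c') • a + (c - c') • v = (a + c • v) - c' • (a + v) := by module
        rw [this, hc', sub_self])
      have e1 := sub_eq_zero.1 this.1
      have e2 := sub_eq_zero.1 this.2
      rw [hc, e2, ← e1, one_smul]
    · obtain ⟨c, hc⟩ := not_ind ha0 hav
      rw [hc, map_smul, ha]

theorem nons (hab : Ind F a b) {k : V ≃ₗ[F] V} {x : F} (hkb : k b = b + x • a)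
    (h : ∀ r s : F, ∃ d : F, k (r • a + s • b) = d • (r • a + s • b)) : x = 0 := by
  obtain ⟨d, hd⟩ := h 0 1
  rw [zero_smul, zero_add, one_smul, hkb] at hd
  exact (hab x (1 - d) (by
    have : x • a + (1 - d) • b = (b + x • a) - d • b := by module
    rw [this, hd, sub_self])).1

theorem stepB (hab : Ind F a b) (hK : Two K) (hN : NoLine K) (hρ : Function.Surjective ρ)
    (hρ0 : ∀ v, ρ v = 0 ↔ ∃ r s : F, v = r • a + s • b) {h : V ≃ₗ[F] V} (hh : h ∈ K) {s : F}
    (hs0 : s ≠ 0) (hs4 : s ^ 4 ≠ 1) (ha : h a = s • a) (hb : h b = s⁻¹ • b) :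
    ∃ u ∈ K, ∃ μ : F, μ ≠ 0 ∧ u a = a ∧ u b = b + μ • a ∧ ∃ U, Rel ρ u U ∧
      (U - 1) * (U - 1) = 0 := by
  obtain ⟨g, hg, hga, hgb⟩ := trans1 hK hab 1
  rw [one_smul] at hgb
  have hgia : g⁻¹ a = a := inv_apply_eq' hga
  have hgib : g⁻¹ b = b - a := inv_apply_eq' (by rw [map_sub, hga, hgb]; abel)
  have hhia : h⁻¹ a = s⁻¹ • a := inv_apply_eq' (by
    rw [map_smul, ha, smul_smul, inv_mul_cancel₀ hs0, one_smul])
  have hhib : h⁻¹ b = s • b := inv_apply_eq' (by
    rw [map_smul, hb, smul_smul, mul_inv_cancel₀ hs0, one_smul])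
  have hst : ∀ k : V ≃ₗ[F] V, (∃ r s : F, k a = r • a + s • b) → (∃ r s : F, k b = r • a + s • b) →
      ∃ M, Rel ρ k M := by
    rintro k ⟨r, s, hrs⟩ ⟨r', s', hrs'⟩
    apply exists_rel hρ
    intro v hv
    obtain ⟨p, q, rfl⟩ := (hρ0 v).1 hv
    rw [hρ0]
    exact ⟨p * r + q * r', p * s + q * s', by rw [map_add, map_smul, map_smul, hrs, hrs']; module⟩
  obtain ⟨X, hX⟩ := hst g ⟨1, 0, by rw [hga]; module⟩ ⟨1, 1, by rw [hgb]; module⟩
  obtain ⟨Xi, hXi⟩ := hst g⁻¹ ⟨1, 0, by rw [hgia]; module⟩ ⟨-1, 1, by rw [hgib]; module⟩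
  obtain ⟨Z, hZ⟩ := hst h ⟨s, 0, by rw [ha]; module⟩ ⟨0, s⁻¹, by rw [hb]; module⟩
  obtain ⟨Zi, hZi⟩ := hst h⁻¹ ⟨s⁻¹, 0, by rw [hhia]; module⟩ ⟨0, s, by rw [hhib]; module⟩
  have hXXi : X * Xi = 1 := hX.inv hρ hXi
  have hXiX : Xi * X = 1 := mul_eq_one_comm.1 hXXi
  have hZZi : Z * Zi = 1 := hZ.inv hρ hZi
  have hZiZ : Zi * Z = 1 := mul_eq_one_comm.1 hZZi
  set k := h * g * h⁻¹ with hk
  have hkK : k ∈ K := K.mul_mem (K.mul_mem hh hg) (K.inv_mem hh)
  have hka : k a = a := by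
    rw [hk, LinearEquiv.mul_apply, LinearEquiv.mul_apply, hhia, map_smul, hga, map_smul, ha,
      smul_smul, inv_mul_cancel₀ hs0, one_smul]
  have hkb : k b = b + (s ^ 2) • a := by
    rw [hk, LinearEquiv.mul_apply, LinearEquiv.mul_apply, hhib, map_smul, hgb, map_smul, map_add,
      hb, ha, smul_add, smul_smul, smul_smul, mul_inv_cancel₀ hs0, one_smul, pow_two]
  have hY : Rel ρ k (Z * X * Zi) := (hZ.mul hX).mul hZi
  set Y := Z * X * Zi with hYdef
  have hYYi : Y * (Z * Xi * Zi) = 1 := by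
    rw [hYdef]
    calc Z * X * Zi * (Z * Xi * Zi) = Z * (X * ((Zi * Z) * Xi)) * Zi := by
          simp only [Matrix.mul_assoc]
      _ = 1 := by rw [hZiZ, Matrix.one_mul, hXXi, Matrix.mul_one, hZZi]
  have htr : Y.trace = X.trace := by
    rw [hYdef, Matrix.trace_mul_cycle, hZiZ, Matrix.one_mul]
  have hdet : Y.det = X.det := by
    rw [hYdef, Matrix.det_mul, Matrix.det_mul]
    have := congrArg Matrix.det hZZi
    rw [Matrix.det_mul, Matrix.det_one] at this
    linear_combination X.det * this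
  -- the commutator
  have hxns : ∀ c : F, X ≠ c • (1 : Matrix _ _ F) := by
    rintro c rfl
    have := nons (x := 1) hab (by rw [hgb, one_smul]) (fun r s => s0a hK hN hρ hρ0 hg hX r s)
    exact one_ne_zero this
  have hcomm : X * Y = Y * X := by
    set w := k * g * (g * k)⁻¹ with hw
    have hwa : w a = a := by
      have : (g * k)⁻¹ a = a := inv_apply_eq' (by rw [LinearEquiv.mul_apply, hka, hga])
      rw [hw, LinearEquiv.mul_apply, this, LinearEquiv.mul_apply, hga, hka]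
    have hwb : w b = b := by
      have : (g * k)⁻¹ b = b - (1 + s ^ 2) • a := inv_apply_eq' (by
        rw [LinearEquiv.mul_apply, map_sub, map_smul, hka, hkb, map_sub, map_add, map_smul,
          map_smul, hga, hgb]; module)
      rw [hw, LinearEquiv.mul_apply, this, LinearEquiv.mul_apply, map_sub, map_smul, hga, hgb,
        map_sub, map_add, map_smul, hka, hkb]; module
    obtain ⟨c, hc⟩ := s0b hab hN hρ hρ0 (k := w)
      (K.mul_mem (K.mul_mem hkK hg) (K.inv_mem (K.mul_mem hg hkK))) hwa hwb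
    have h1 : w * (g * k) = k * g := by rw [hw]; group
    have h2 := hc.mul (hX.mul hY)
    rw [h1] at h2
    have h3 := (hY.mul hX).unique hρ h2
    rw [Matrix.smul_mul, Matrix.one_mul] at h3
    rcases mat_c hYYi hXXi h3 with h4 | ⟨h4, h5, h6⟩
    · rw [h3, h4, one_smul]
    · exfalso
      have h7 : (2 : F) ≠ 0 := by
        intro h
        apply h5
        rw [h4]
        linear_combination -h
      have h8 : Rel ρ (g * g) ((-X.det) • (1 : Matrix _ _ F)) := by
        have := hX.mul hX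
        rw [mat_sq, h6, zero_smul, zero_sub, ← neg_smul] at this
        exact this
      have := nons (x := 2) hab (k := g * g) (by
        rw [LinearEquiv.mul_apply, hgb, map_add, hga, hgb]; module)
        (fun r s => s0a hK hN hρ hρ0 (K.mul_mem hg hg) h8 r s)
      exact h7 this
  rcases mat_tri hXXi hxns hcomm htr hdet with h1 | h1 | h1
  · exfalso
    have h2 := hY.mul hXi
    rw [h1, ← one_smul F (1 : Matrix (Fin 2) (Fin 2) F)] at h2
    have h3 := nons (x := s ^ 2 - 1) hab (k := k * g⁻¹) (by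
      rw [LinearEquiv.mul_apply, hgib, map_sub, hka, hkb]; module)
      (fun r s => s0a hK hN hρ hρ0 (K.mul_mem hkK (K.inv_mem hg)) h2 r s)
    apply hs4
    linear_combination (s ^ 2 + 1) * h3
  · exfalso
    have h2 := hY.mul hX
    rw [h1] at h2
    have h3 := nons (x := 1 + s ^ 2) hab (k := k * g) (by
      rw [LinearEquiv.mul_apply, hgb, map_add, hka, hkb]; module)
      (fun r s => s0a hK hN hρ hρ0 (K.mul_mem hkK hg) h2 r s)
    apply hs4
    linear_combination (s ^ 2 - 1) * h3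
  · refine ⟨k * g⁻¹, K.mul_mem hkK (K.inv_mem hg), s ^ 2 - 1, ?_, ?_, ?_, Y * Xi, hY.mul hXi, h1⟩
    · intro h3
      apply hs4
      linear_combination (s ^ 2 + 1) * h3
    · rw [LinearEquiv.mul_apply, hgia, hka]
    · rw [LinearEquiv.mul_apply, hgib, map_sub, hka, hkb]; module

end Pool.Agent.Hp21.C32
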