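import Pool.Agent.Hp21.C32Four3

namespace Pool.Agent.Hp21.C32
open Pool.Agent.Results.MP_c32cfc_al.TwoTransitive
variable {F : Type*} [Field F] {V : Type*} [AddCommGroup V] [Module F V]

theorem nil_trace {P : Matrix (Fin 2) (Fin 2) F} (hP : P * P = 0) : P.trace = 0 := by
  have h1 := congrArg Matrix.det hP
  rw [Matrix.det_mul] at h1
  have h2 : P.det = 0 := by simpa using h1
  have h3 := mat_sq P
  rw [hP, h2, zero_smul, sub_zero] at h3
  rcases smul_eq_zero.1 h3.symm with h | h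
  · exact h
  · rw [h, Matrix.trace_zero]

theorem uni_trace {U : Matrix (Fin 2) (Fin 2) F} (hU : (U - 1) * (U - 1) = 0) : U.trace = 2 := by
  have h1 := nil_trace hU
  rw [Matrix.trace_sub, Matrix.trace_one, Fintype.card_fin] at h1
  push_cast at h1
  exact sub_eq_zero.1 h1

theorem uni_inv {U : Matrix (Fin 2) (Fin 2) F} (hU : (U - 1) * (U - 1) = 0) :
    U * (2 - U) = 1 := by
  have : U * (2 - U) = 1 - (U - 1) * (U - 1) := by noncomm_ring
  rw [this, hU, sub_zero]

theorem det_col (Z : Matrix (Fin 2) (Fin 2) F) (w w' : Fin 2 → F) :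
    Z.det * (w 0 * w' 1 - w 1 * w' 0) =
      (Z.mulVec w) 0 * (Z.mulVec w') 1 - (Z.mulVec w) 1 * (Z.mulVec w') 0 := by
  simp only [Matrix.det_fin_two, Matrix.mulVec, dotProduct, Fin.sum_univ_two]
  ring

theorem two_basis {w w' : Fin 2 → F} (hΔ : w 0 * w' 1 - w 1 * w' 0 ≠ 0) (y : Fin 2 → F) :
    ∃ p q : F, y = p • w + q • w' := by
  refine ⟨(y 0 * w' 1 - y 1 * w' 0) / (w 0 * w' 1 - w 1 * w' 0),
    (w 0 * y 1 - w 1 * y 0) / (w 0 * w' 1 - w 1 * w' 0), ?_⟩
  ext i
  fin_cases i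
  · simp only [Fin.zero_eta, Pi.add_apply, Pi.smul_apply, smul_eq_mul]
    rw [div_mul_eq_mul_div, div_mul_eq_mul_div, ← add_div, eq_div_iff hΔ]; ring
  · simp only [Fin.mk_one, Pi.add_apply, Pi.smul_apply, smul_eq_mul]
    rw [div_mul_eq_mul_div, div_mul_eq_mul_div, ← add_div, eq_div_iff hΔ]; ring

theorem two_ind {w w' : Fin 2 → F} (hΔ : w 0 * w' 1 - w 1 * w' 0 ≠ 0) {p q : F}
    (h : p • w + q • w' = 0) : p = 0 ∧ q = 0 := by
  have h0 := congrFun h 0
  have h1 := congrFun h 1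
  simp at h0 h1
  constructor
  · have : p * (w 0 * w' 1 - w 1 * w' 0) = 0 := by linear_combination w' 1 * h0 - w' 0 * h1
    exact (mul_eq_zero.1 this).resolve_right hΔ
  · have : q * (w 0 * w' 1 - w 1 * w' 0) = 0 := by linear_combination w 0 * h1 - w 1 * h0
    exact (mul_eq_zero.1 this).resolve_right hΔ

variable {K : Subgroup (V ≃ₗ[F] V)} {ρ : V →ₗ[F] (Fin 2 → F)} {a b : V}

theorem stepC [FiniteDimensional F V] (hdim : Module.finrank F V = 4) (hab : Ind F a b)
    (hK : Two K) (hN : NoLine K) (hρ : Function.Surjective ρ)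
    (hρ0 : ∀ v, ρ v = 0 ↔ ∃ r s : F, v = r • a + s • b) {h : V ≃ₗ[F] V} (hh : h ∈ K) {s : F}
    (hs0 : s ≠ 0) (ha : h a = s • a) (hb : h b = s⁻¹ • b)
    {u : V ≃ₗ[F] V} (hu : u ∈ K) {μ : F} (hμ : μ ≠ 0) (hua : u a = a) (hub : u b = b + μ • a)
    {U : Matrix (Fin 2) (Fin 2) F} (hU : Rel ρ u U) (hU2 : (U - 1) * (U - 1) = 0)
    {Z : Matrix (Fin 2) (Fin 2) F} (hZ : Rel ρ h Z) : Z.det * s ^ 8 = 1 := by
  have ha0 : a ≠ 0 := by
    rintro rfl
    exact one_ne_zero (hab 1 0 (by simp)).1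
  -- the nilpotent N
  let N : V →ₗ[F] V := (u : V →ₗ[F] V) - LinearMap.id
  have hNv : ∀ v, N v = u v - v := fun v => rfl
  have huv : ∀ v, u v = v + N v := fun v => by rw [hNv]; abel
  have hNa : N a = 0 := by rw [hNv, hua, sub_self]
  have hNb : N b = μ • a := by rw [hNv, hub]; abel
  have hρN : ∀ v, ρ (N v) = (U - 1).mulVec (ρ v) := fun v => by
    rw [hNv, map_sub, hU, Matrix.sub_mulVec, Matrix.one_mulVec]
  have hNN : ∀ v, ∃ r t : F, N (N v) = r • a + t • b := by
    intro v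
    rw [← hρ0, hρN, hρN, Matrix.mulVec_mulVec, hU2, Matrix.zero_mulVec]
  have hN4 : ∀ v, N (N (N (N v))) = 0 := by
    intro v
    obtain ⟨r, t, hrt⟩ := hNN v
    rw [hrt, map_add, map_smul, map_smul, hNa, hNb, map_add, map_smul, map_smul, map_smul, hNa]
    simp
  obtain ⟨v, hv⟩ : ∃ v, N (N (N v)) ≠ 0 := by
    by_contra hcon
    push Not at hcon
    have := unip hdim hK hN hu N huv hcon b
    rw [hNb] at this
    exact (smul_ne_zero hμ ha0) this
  obtain ⟨r, t, hrt⟩ := hNN v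
  have hN3 : N (N (N v)) = (t * μ) • a := by
    rw [hrt, map_add, map_smul, map_smul, hNa, hNb]; module
  have ht : t ≠ 0 := by
    rintro rfl
    rw [zero_mul, zero_smul] at hN3
    exact hv hN3
  have h2 : (2 : F) ≠ 0 := by
    intro h2
    have := unip hdim hK hN (K.mul_mem hu hu) (N ∘ₗ N) (fun v => by
      rw [LinearEquiv.mul_apply, huv (u v), huv v, map_add, LinearMap.comp_apply]
      have : v + N v + (N v + N (N v)) = v + (2 : F) • N v + N (N v) := by
        rw [two_smul]; abel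
      rw [this, h2, zero_smul, add_zero]) (fun v => by
      simp only [LinearMap.comp_apply]
      rw [hN4 v, map_zero, map_zero]) v
    rw [LinearMap.comp_apply] at this
    apply hv
    rw [this, map_zero]
  -- the conjugate
  have hhia : h⁻¹ a = s⁻¹ • a := inv_apply_eq' (by
    rw [map_smul, ha, smul_smul, inv_mul_cancel₀ hs0, one_smul])
  have hhib : h⁻¹ b = s • b := inv_apply_eq' (by
    rw [map_smul, hb, smul_smul, mul_inv_cancel₀ hs0, one_smul])
  obtain ⟨Zi, hZi⟩ : ∃ M, Rel ρ h⁻¹ M := by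
    apply exists_rel hρ
    intro v hv
    obtain ⟨p, q, rfl⟩ := (hρ0 v).1 hv
    rw [hρ0]
    exact ⟨p * s⁻¹, q * s, by rw [map_add, map_smul, map_smul, hhia, hhib]; module⟩
  have hZZi : Z * Zi = 1 := hZ.inv hρ hZi
  have hZiZ : Zi * Z = 1 := mul_eq_one_comm.1 hZZi
  set k := h * u * h⁻¹ with hk
  have hkK : k ∈ K := K.mul_mem (K.mul_mem hh hu) (K.inv_mem hh)
  have hka : k a = a := by
    rw [hk, LinearEquiv.mul_apply, LinearEquiv.mul_apply, hhia, map_smul, hua, map_smul, ha,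
      smul_smul, inv_mul_cancel₀ hs0, one_smul]
  have hkb : k b = b + (s ^ 2 * μ) • a := by
    rw [hk, LinearEquiv.mul_apply, LinearEquiv.mul_apply, hhib, map_smul, hub, map_smul, map_add,
      hb, map_smul, ha, smul_add, smul_smul, mul_inv_cancel₀ hs0, one_smul]
    module
  have hkh : ∀ v, k (h v) = h (u v) := by
    intro v
    have h1 : k * h = h * u := by rw [hk]; group
    have h2 := LinearEquiv.congr_fun h1 v
    exact h2
  have hU1 : Rel ρ k (Z * U * Zi) := (hZ.mul hU).mul hZi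
  set U1 := Z * U * Zi with hU1def
  have hU12 : (U1 - 1) * (U1 - 1) = 0 := by
    have e1 : U1 - 1 = Z * (U - 1) * Zi := by
      rw [hU1def, Matrix.mul_sub, Matrix.sub_mul, Matrix.mul_one, hZZi]
    rw [e1]
    calc Z * (U - 1) * Zi * (Z * (U - 1) * Zi) = Z * ((U - 1) * ((Zi * Z) * (U - 1))) * Zi := by
          simp only [Matrix.mul_assoc]
      _ = 0 := by rw [hZiZ, Matrix.one_mul, hU2, Matrix.mul_zero, Matrix.zero_mul]
  -- they commute
  have hcomm : ∀ x, k (u x) = u (k x) := by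
    set w := k * u * (u * k)⁻¹ with hw
    have hwK : w ∈ K := K.mul_mem (K.mul_mem hkK hu) (K.inv_mem (K.mul_mem hu hkK))
    have hwa : w a = a := by
      have : (u * k)⁻¹ a = a := inv_apply_eq' (by rw [LinearEquiv.mul_apply, hka, hua])
      rw [hw, LinearEquiv.mul_apply, this, LinearEquiv.mul_apply, hua, hka]
    have hwb : w b = b := by
      have : (u * k)⁻¹ b = b - (μ + s ^ 2 * μ) • a := inv_apply_eq' (by
        rw [LinearEquiv.mul_apply, map_sub, map_smul, hka, hkb, map_sub, map_add, map_smul,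
          map_smul, hua, hub]; module)
      rw [hw, LinearEquiv.mul_apply, this, LinearEquiv.mul_apply, map_sub, map_smul, hua, hub,
        map_sub, map_add, map_smul, map_smul, hka, hkb]; module
    obtain ⟨c, hc⟩ := s0b hab hN hρ hρ0 hwK hwa hwb
    have h1 : w * (u * k) = k * u := by rw [hw]; group
    have h3 := hc.mul (hU.mul hU1)
    rw [h1] at h3
    have h4 := (hU1.mul hU).unique hρ h3
    rw [Matrix.smul_mul, Matrix.one_mul] at h4
    have hc1 : c = 1 := by
      rcases mat_c (uni_inv hU12) (uni_inv hU2) h4 with h5 | ⟨-, -, h5⟩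
      · exact h5
      · rw [uni_trace hU2] at h5
        exact absurd h5 h2
    let M : V →ₗ[F] V := (w : V →ₗ[F] V) - LinearMap.id
    have hMv : ∀ v, M v = w v - v := fun v => rfl
    have hM := unip hdim hK hN hwK M (fun v => by rw [hMv]; abel) (fun v => by
      have h6 : ρ (M v) = 0 := by
        rw [hMv, map_sub, rel_smul hc, hc1, one_smul, sub_self]
      obtain ⟨p, q, hpq⟩ := (hρ0 _).1 h6
      have h7 : M (M v) = 0 := by
        rw [hpq, map_add, map_smul, map_smul, hMv, hMv, hwa, hwb]; simp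
      rw [h7, map_zero])
    intro x
    have h8 := hM (u (k x))
    rw [hMv, sub_eq_zero] at h8
    rw [← h8]
    have h9 := LinearEquiv.congr_fun h1 x
    exact h9.symm
  let N1 : V →ₗ[F] V := (k : V →ₗ[F] V) - LinearMap.id
  have hN1v : ∀ v, N1 v = k v - v := fun v => rfl
  have hNN1 : ∀ x, N1 (N x) = N (N1 x) := by
    intro x
    rw [hN1v, hNv, hN1v, hNv, map_sub, map_sub, hcomm]; abel
  have hN1a : N1 a = 0 := by rw [hN1v, hka, sub_self]
  have hN1b : N1 b = (s ^ 2 * μ) • a := by rw [hN1v, hkb]; abel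
  have hN1h : ∀ x, N1 (h x) = h (N x) := by
    intro x
    rw [hN1v, hkh, hNv, map_sub]
  have hρN1 : ∀ v, ρ (N1 v) = (U1 - 1).mulVec (ρ v) := fun v => by
    rw [hN1v, map_sub, hU1, Matrix.sub_mulVec, Matrix.one_mulVec]
  -- the basis
  obtain ⟨w, hw⟩ : ∃ w, w = ρ v := ⟨_, rfl⟩
  obtain ⟨w', hw'⟩ : ∃ w', w' = ρ (N v) := ⟨_, rfl⟩
  have hPw : (U - 1).mulVec w = w' := by rw [hw, hw', hρN]
  have hPw' : (U - 1).mulVec w' = 0 := by
    rw [← hPw, Matrix.mulVec_mulVec, hU2, Matrix.zero_mulVec]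
  have hw'0 : w' ≠ 0 := by
    intro h0
    rw [hw', hρ0] at h0
    obtain ⟨p, q, hpq⟩ := h0
    apply hv
    rw [hpq, map_add, map_smul, map_smul, hNa, hNb, map_add, map_smul, map_smul, map_smul, hNa]
    simp
  have hΔ : w 0 * w' 1 - w 1 * w' 0 ≠ 0 := by
    intro h0
    apply hw'0
    obtain ⟨κ, hκ⟩ : ∃ κ : F, w = κ • w' := by
      by_cases h1 : w' 0 = 0
      · have h2 : w' 1 ≠ 0 := by
          intro h2
          apply hw'0
          ext i
          fin_cases i
          · exact h1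
          · exact h2
        refine ⟨w 1 / w' 1, ?_⟩
        ext i
        fin_cases i
        · simp [h1]
          rw [h1] at h0
          have : w 0 * w' 1 = 0 := by linear_combination h0
          exact (mul_eq_zero.1 this).resolve_right h2
        · simp [h2]
      · refine ⟨w 0 / w' 0, ?_⟩
        ext i
        fin_cases i
        · simp [h1]
        · simp
          field_simp
          linear_combination -h0
    rw [← hPw, hκ, Matrix.mulVec_smul, hPw', smul_zero]
  obtain ⟨α, β, hαβ⟩ := two_basis hΔ (ρ (N1 v))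
  have hQw : (U1 - 1).mulVec w = α • w + β • w' := by rw [hw, ← hρN1, hαβ, ← hw]
  have hQw' : (U1 - 1).mulVec w' = α • w' := by
    rw [hw', ← hρN1, hNN1, hρN, hαβ, Matrix.mulVec_add, Matrix.mulVec_smul, Matrix.mulVec_smul,
      hPw, hPw', smul_zero, add_zero, ← hw']
  have hα : α = 0 := by
    have h1 : (U1 - 1).mulVec ((U1 - 1).mulVec w) = 0 := by
      rw [Matrix.mulVec_mulVec, hU12, Matrix.zero_mulVec]
    rw [hQw, Matrix.mulVec_add, Matrix.mulVec_smul, Matrix.mulVec_smul, hQw, hQw'] at h1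
    have h3 := two_ind hΔ (p := α * α) (q := α * β + β * α) (by rw [← h1]; module)
    exact mul_self_eq_zero.1 h3.1
  rw [hα, zero_smul, zero_add] at hQw hαβ
  rw [hα, zero_smul] at hQw'
  obtain ⟨r1, t1, hrt1⟩ : ∃ r1 t1 : F, N1 v - β • N v = r1 • a + t1 • b := by
    rw [← hρ0, map_sub, map_smul, hαβ, hw', sub_self]
  have hN1v' : N1 v = β • N v + (r1 • a + t1 • b) := by rw [← hrt1]; abel
  have hβ : β = s ^ 2 := by
    have h1 : N1 (N (N v)) = (t * (s ^ 2 * μ)) • a := by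
      rw [hrt, map_add, map_smul, map_smul, hN1a, hN1b]; module
    have h3 : N1 (N (N v)) = (β * (t * μ)) • a := by
      rw [hNN1, hNN1, hN1v']
      simp only [map_add, map_smul, hN3, hNa, hNb, map_zero, smul_zero, add_zero]
      module
    rw [h1] at h3
    have h5 : (t * (s ^ 2 * μ) - β * (t * μ)) • a = 0 := by rw [sub_smul, h3, sub_self]
    have h6 := (smul_eq_zero.1 h5).resolve_right ha0
    have h7 : (s ^ 2 - β) * (t * μ) = 0 := by linear_combination h6
    have h8 := (mul_eq_zero.1 h7).resolve_right (mul_ne_zero ht hμ)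
    exact (sub_eq_zero.1 h8).symm
  obtain ⟨χ, χ1, hχ⟩ := two_basis hΔ (ρ (h v))
  have hZw : Z.mulVec w = χ • w + χ1 • w' := by rw [hw, ← hZ, hχ, ← hw]
  have hZw' : Z.mulVec w' = (χ * β) • w' := by
    rw [hw', ← hZ, ← hN1h, hρN1, hχ, Matrix.mulVec_add, Matrix.mulVec_smul, Matrix.mulVec_smul,
      hQw, hQw', ← hw']
    module
  have hdet : Z.det = χ ^ 2 * β := by
    have h1 := det_col Z w w'
    rw [hZw, hZw'] at h1
    simp at h1
    have h3 : (Z.det - χ ^ 2 * β) * (w 0 * w' 1 - w 1 * w' 0) = 0 := by linear_combination h1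
    exact sub_eq_zero.1 ((mul_eq_zero.1 h3).resolve_right hΔ)
  have hχs : s * χ * β ^ 2 = 1 := by
    obtain ⟨r2, t2, hrt2⟩ : ∃ r2 t2 : F, h v - (χ • v + χ1 • N v) = r2 • a + t2 • b := by
      rw [← hρ0, map_sub, map_add, map_smul, map_smul, hχ, hw, hw', sub_self]
    have hhv : h v = χ • v + χ1 • N v + (r2 • a + t2 • b) := by rw [← hrt2]; abel
    have hN1N : N1 (N v) = β • (r • a + t • b) + (t1 * μ) • a := by
      rw [hNN1, hN1v', map_add, map_smul, hrt, map_add, map_smul, map_smul, hNa, hNb]; module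
    have h1 : h (N (N v)) = (r * s) • a + (t * s⁻¹) • b := by
      rw [hrt, map_add, map_smul, map_smul, ha, hb]; module
    have h3 : N1 (N1 (h v)) = h (N (N v)) := by rw [hN1h, hN1h]
    have h5 : N1 (h v) = χ • (β • N v + (r1 • a + t1 • b)) + χ1 • (β • (r • a + t • b) +
        (t1 * μ) • a) + (t2 * (s ^ 2 * μ)) • a := by
      rw [hhv, map_add, map_add, map_smul, map_smul, hN1v', hN1N, map_add, map_smul, map_smul,
        hN1a, hN1b]; module
    have h6 : N1 (N1 (h v)) = (χ * β * β * r + χ * β * t1 * μ + χ * t1 * (s ^ 2 * μ) +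
        χ1 * β * t * (s ^ 2 * μ)) • a + (χ * β * β * t) • b := by
      rw [h5]
      simp only [map_add, map_smul, hN1N, hN1a, hN1b]
      module
    rw [h3, h1] at h6
    have h7 := hab (r * s - (χ * β * β * r + χ * β * t1 * μ + χ * t1 * (s ^ 2 * μ) +
        χ1 * β * t * (s ^ 2 * μ))) (t * s⁻¹ - χ * β * β * t) (by
      rw [sub_smul, sub_smul, sub_add_sub_comm, h6, sub_self])
    have h8 := h7.2
    have h9 : t * (s⁻¹ - χ * β ^ 2) = 0 := by linear_combination h8
    have h10 := sub_eq_zero.1 ((mul_eq_zero.1 h9).resolve_left ht)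
    rw [mul_assoc, ← h10, mul_inv_cancel₀ hs0]
  rw [hdet]
  rw [hβ] at hχs ⊢
  linear_combination (s * χ * (s ^ 2) ^ 2 + 1) * hχs

theorem line_four [Infinite F] [FiniteDimensional F V] (hdim : Module.finrank F V = 4)
    {K : Subgroup (V ≃ₗ[F] V)} (hK : Two K) : ∃ (a b : V) (h : V ≃ₗ[F] V), h ∈ NL K a b ∧
      ∃ v0 ∈ Submodule.span F {a, b}, ∀ c : F, h v0 ≠ c • v0 := by
  by_contra hcon
  have hN : NoLine K := by
    intro a b h hh v0 hv0
    by_contra hc
    push Not at hc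
    exact hcon ⟨a, b, h, hh, v0, hv0, hc⟩
  obtain ⟨s, hs0, hs16⟩ : ∃ s : F, s ≠ 0 ∧ s ^ 16 ≠ 1 := by
    classical
    let P : Polynomial F := Polynomial.X * (Polynomial.X ^ 16 - 1)
    have hP : P ≠ 0 := by
      refine mul_ne_zero Polynomial.X_ne_zero ?_
      exact Polynomial.X_pow_sub_C_ne_zero (by norm_num) 1
    obtain ⟨l, hl⟩ := Polynomial.exists_eval_ne_zero_of_natDegree_lt_card P hP (by
      exact lt_of_lt_of_le (Cardinal.natCast_lt_aleph0) (Cardinal.aleph0_le_mk F))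
    simp only [P, Polynomial.eval_mul, Polynomial.eval_sub, Polynomial.eval_pow,
      Polynomial.eval_X, Polynomial.eval_one] at hl
    refine ⟨l, ?_, ?_⟩
    · rintro rfl; simp at hl
    · intro h; simp [h] at hl
  have hs4 : s ^ 4 ≠ 1 := by
    intro h
    apply hs16
    linear_combination (s ^ 12 + s ^ 8 + s ^ 4 + 1) * h
  have hsi4 : s⁻¹ ^ 4 ≠ 1 := by
    rw [inv_pow]
    intro h
    exact hs4 (inv_eq_one.1 h)
  obtain ⟨a, b, hab⟩ := exists_ind (F := F) (V := V) (by omega)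
  obtain ⟨h, hh, ha, hb⟩ := diagL (K := K) (a := a) (b := b) (fun x => trans1 hK hab x)
    (fun x => trans1 hK hab.swap x) s hs0
  obtain ⟨ρ, hρ, hρ0⟩ := exists_rho hdim hab
  obtain ⟨Z, hZ⟩ : ∃ M, Rel ρ h M := by
    apply exists_rel hρ
    intro v hv
    obtain ⟨p, q, rfl⟩ := (hρ0 v).1 hv
    rw [hρ0]
    exact ⟨p * s, q * s⁻¹, by rw [map_add, map_smul, map_smul, ha, hb]; module⟩
  have hρ0' : ∀ v, ρ v = 0 ↔ ∃ r s : F, v = r • b + s • a := by
    intro v
    rw [hρ0]
    constructor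
    · rintro ⟨r, s, h⟩
      exact ⟨s, r, by rw [h, add_comm]⟩
    · rintro ⟨r, s, h⟩
      exact ⟨s, r, by rw [h, add_comm]⟩
  obtain ⟨u, hu, μ, hμ, hua, hub, U, hU, hU2⟩ := stepB hab hK hN hρ hρ0 hh hs0 hs4 ha hb
  have h1 := stepC hdim hab hK hN hρ hρ0 hh hs0 ha hb hu hμ hua hub hU hU2 hZ
  have hs0' : s⁻¹ ≠ 0 := inv_ne_zero hs0
  have ha' : h a = s⁻¹⁻¹ • a := by rw [inv_inv, ha]
  obtain ⟨u', hu', μ', hμ', hua', hub', U', hU', hU2'⟩ :=
    stepB hab.swap hK hN hρ hρ0' hh hs0' hsi4 hb ha'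
  have h2 := stepC hdim hab.swap hK hN hρ hρ0' hh hs0' hb ha' hu' hμ' hua' hub' hU' hU2' hZ
  apply hs16
  rw [inv_pow] at h2
  have h3 : Z.det = s ^ 8 := by
    field_simp at h2
    exact h2
  rw [h3] at h1
  linear_combination h1

end Pool.Agent.Hp21.C32
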