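import Mathlib

set_option autoImplicit false

/-!
# A determinant bound for matrices whose rows are sums `u + v - w` of short coordinate vectors
-/

namespace Pool.Agent.Hp21

open Matrix Finset

/-- `u` is zero or a multiple `t e_a`, `0 ≤ t ≤ 1`, of a coordinate vector. -/
def Bit {k : ℕ} (u : Fin k → ℝ) : Prop :=
  u = 0 ∨ ∃ (a : Fin k) (t : ℝ), 0 ≤ t ∧ t ≤ 1 ∧ u = Pi.single a t

/-- `u` is zero or a coordinate vector. -/
def Vx {k : ℕ} (u : Fin k → ℝ) : Prop :=
  u = 0 ∨ ∃ a : Fin k, u = Pi.single a 1

/-- rows of the form `u + v - w` with short coordinate vectors `u`, `v`, `w` -/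
def RowT {k : ℕ} (r : Fin k → ℝ) : Prop :=
  ∃ u v w : Fin k → ℝ, Bit u ∧ Bit v ∧ Bit w ∧ r = u + v - w

/-- rows of the form `u + v - w` with coordinate vectors or zero vectors `u`, `v`, `w` -/
def RowV {k : ℕ} (r : Fin k → ℝ) : Prop :=
  ∃ u v w : Fin k → ℝ, Vx u ∧ Vx v ∧ Vx w ∧ r = u + v - w

theorem Vx.bit {k : ℕ} {u : Fin k → ℝ} (h : Vx u) : Bit u := by
  rcases h with h | ⟨a, h⟩
  · exact Or.inl h
  · exact Or.inr ⟨a, 1, zero_le_one, le_rfl, h⟩

theorem RowV.rowT {k : ℕ} {r : Fin k → ℝ} (h : RowV r) : RowT r := by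
  obtain ⟨u, v, w, hu, hv, hw, h⟩ := h
  exact ⟨u, v, w, hu.bit, hv.bit, hw.bit, h⟩

/-- Hadamard's inequality. -/
theorem hadamard {n : ℕ} (A : Matrix (Fin n) (Fin n) ℝ) :
    |A.det| ≤ ∏ i, Real.sqrt (∑ j, A i j ^ 2) := by
  classical
  let b : OrthonormalBasis (Fin n) ℝ (EuclideanSpace ℝ (Fin n)) := EuclideanSpace.basisFun (Fin n) ℝ
  let o : Orientation ℝ (EuclideanSpace ℝ (Fin n)) (Fin n) := b.toBasis.orientation
  have : Fact (Module.finrank ℝ (EuclideanSpace ℝ (Fin n)) = n) := ⟨by simp⟩
  let v : Fin n → EuclideanSpace ℝ (Fin n) := fun i => WithLp.toLp 2 (A i)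
  have h1 := o.abs_volumeForm_apply_le v
  have h2 : o.volumeForm = b.toBasis.det := o.volumeForm_robust b rfl
  rw [h2] at h1
  have h3 : b.toBasis.det v = A.det := by
    rw [Module.Basis.det_apply]
    rw [← Matrix.det_transpose]
    congr 1
  rw [h3] at h1
  refine h1.trans (le_of_eq ?_)
  refine Finset.prod_congr rfl fun i _ => ?_
  rw [EuclideanSpace.norm_eq]
  congr 1
  refine Finset.sum_congr rfl fun j _ => ?_
  simp [v]

/-- The determinant is affine in each row: a value at a convex combination is at most one of the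
values at the ends. -/
theorem affine {n : ℕ} (M : Matrix (Fin n) (Fin n) ℝ) (r : Fin n) (p q : Fin n → ℝ) (t : ℝ)
    (h0 : 0 ≤ t) (h1 : t ≤ 1) :
    |(M.updateRow r (t • p + q)).det| ≤ |(M.updateRow r q).det| ∨
      |(M.updateRow r (t • p + q)).det| ≤ |(M.updateRow r (p + q)).det| := by
  have e1 : (M.updateRow r (t • p + q)).det =
      (1 - t) * (M.updateRow r q).det + t * (M.updateRow r (p + q)).det := by
    rw [Matrix.det_updateRow_add, Matrix.det_updateRow_add, Matrix.det_updateRow_smul]
    ring
  by_contra hcon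
  push Not at hcon
  obtain ⟨h2, h3⟩ := hcon
  have h4 : |(M.updateRow r (t • p + q)).det| ≤
      (1 - t) * |(M.updateRow r q).det| + t * |(M.updateRow r (p + q)).det| := by
    rw [e1]
    refine (abs_add_le _ _).trans ?_
    rw [abs_mul, abs_mul, abs_of_nonneg (by linarith : 0 ≤ 1 - t), abs_of_nonneg h0]
  rcases eq_or_lt_of_le h0 with h | h
  · subst h
    simp only [sub_zero, one_mul, zero_mul, add_zero] at h4
    linarith
  · nlinarith

theorem bit_smul {k : ℕ} {u : Fin k → ℝ} (h : Bit u) :
    ∃ (p : Fin k → ℝ) (t : ℝ), 0 ≤ t ∧ t ≤ 1 ∧ u = t • p ∧ Vx p := by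
  rcases h with h | ⟨a, t, h0, h1, h⟩
  · exact ⟨0, 0, le_rfl, zero_le_one, by simp [h], Or.inl rfl⟩
  · refine ⟨Pi.single a 1, t, h0, h1, ?_, Or.inr ⟨a, rfl⟩⟩
    rw [h]
    ext j
    by_cases hj : j = a
    · subst hj; simp
    · simp [Pi.single_eq_of_ne hj]

/-- rounding of one summand -/
theorem round1 {n : ℕ} (M : Matrix (Fin n) (Fin n) ℝ) (r : Fin n) (u q : Fin n → ℝ) (hu : Bit u) :
    ∃ u', Vx u' ∧ |(M.updateRow r (u + q)).det| ≤ |(M.updateRow r (u' + q)).det| := by
  obtain ⟨p, t, h0, h1, rfl, hp⟩ := bit_smul hu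
  rcases affine M r p q t h0 h1 with h | h
  · exact ⟨0, Or.inl rfl, by simpa using h⟩
  · exact ⟨p, hp, h⟩

/-- rounding of the negative summand -/
theorem round2 {n : ℕ} (M : Matrix (Fin n) (Fin n) ℝ) (r : Fin n) (w q : Fin n → ℝ) (hw : Bit w) :
    ∃ w', Vx w' ∧ |(M.updateRow r (q - w)).det| ≤ |(M.updateRow r (q - w')).det| := by
  obtain ⟨p, t, h0, h1, rfl, hp⟩ := bit_smul hw
  have e : q - t • p = t • (-p) + q := by
    ext j; simp; ring
  rcases affine M r (-p) q t h0 h1 with h | h
  · refine ⟨0, Or.inl rfl, ?_⟩
    rw [e, sub_zero]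
    exact h
  · refine ⟨p, hp, ?_⟩
    rw [e]
    have e2 : q - p = -p + q := by abel
    rw [e2]
    exact h

theorem round_row {n : ℕ} (M : Matrix (Fin n) (Fin n) ℝ) (r : Fin n) (ρ : Fin n → ℝ)
    (h : RowT ρ) : ∃ ρ', RowV ρ' ∧ |(M.updateRow r ρ).det| ≤ |(M.updateRow r ρ').det| := by
  obtain ⟨u, v, w, hu, hv, hw, rfl⟩ := h
  obtain ⟨u', hu', h1⟩ := round1 M r u (v - w) hu
  obtain ⟨v', hv', h2⟩ := round1 M r v (u' - w) hv
  obtain ⟨w', hw', h3⟩ := round2 M r w (u' + v') hw
  refine ⟨u' + v' - w', ⟨u', v', w', hu', hv', hw', rfl⟩, ?_⟩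
  have e1 : u + v - w = u + (v - w) := by abel
  have e2 : u' + (v - w) = v + (u' - w) := by abel
  have e3 : v' + (u' - w) = u' + v' - w := by abel
  rw [e1]
  rw [e2] at h1
  rw [e3] at h2
  exact h1.trans (h2.trans h3)

theorem round_all {n : ℕ} (s : Finset (Fin n)) (M : Matrix (Fin n) (Fin n) ℝ)
    (hM : ∀ r, RowT (M r)) :
    ∃ M' : Matrix (Fin n) (Fin n) ℝ, (∀ r, RowT (M' r)) ∧ (∀ r ∈ s, RowV (M' r)) ∧
      |M.det| ≤ |M'.det| := by
  classical
  induction s using Finset.induction_on with
  | empty => exact ⟨M, hM, by simp, le_rfl⟩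
  | insert a s ha ih =>
    obtain ⟨M', h1, h2, h3⟩ := ih
    obtain ⟨ρ', hρ, h4⟩ := round_row M' a (M' a) (h1 a)
    rw [Matrix.updateRow_eq_self] at h4
    refine ⟨M'.updateRow a ρ', fun r => ?_, fun r hr => ?_, h3.trans h4⟩
    · by_cases hra : r = a
      · subst hra
        rw [Matrix.updateRow_self]
        exact hρ.rowT
      · rw [Matrix.updateRow_ne hra]
        exact h1 r
    · by_cases hra : r = a
      · subst hra
        rw [Matrix.updateRow_self]
        exact hρ
      · rw [Matrix.updateRow_ne hra]
        exact h2 r ((Finset.mem_insert.1 hr).resolve_left hra)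

/-- the shape of the vertex rows -/
theorem rowV_cases {k : ℕ} {ρ : Fin k → ℝ} (h : RowV ρ) :
    ∑ j, ρ j ^ 2 ≤ 3 ∨ (∃ a, ρ = Pi.single a 2) ∨
      ∃ a c, a ≠ c ∧ ρ = Pi.single a 2 - Pi.single c 1 := by
  classical
  have key : ∀ a b : Fin k, ∑ j, (Pi.single a (1 : ℝ) : Fin k → ℝ) j * (Pi.single b 1 : Fin k → ℝ) j =
      if a = b then 1 else 0 := by
    intro a b
    rw [Finset.sum_eq_single a]
    · by_cases hab : a = b
      · subst hab; simp
      · simp [hab, Pi.single_eq_of_ne hab]
    · intro j _ hj
      simp [Pi.single_eq_of_ne hj]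
    · simp
  have expand : ∀ u v w : Fin k → ℝ, ∑ j, (u + v - w) j ^ 2 =
      ∑ j, u j * u j + ∑ j, v j * v j + ∑ j, w j * w j + 2 * ∑ j, u j * v j
        - 2 * ∑ j, u j * w j - 2 * ∑ j, v j * w j := by
    intro u v w
    rw [Finset.mul_sum, Finset.mul_sum, Finset.mul_sum, ← Finset.sum_add_distrib,
      ← Finset.sum_add_distrib, ← Finset.sum_add_distrib, ← Finset.sum_sub_distrib,
      ← Finset.sum_sub_distrib]
    refine Finset.sum_congr rfl fun j _ => ?_
    simp only [Pi.add_apply, Pi.sub_apply]
    ring
  obtain ⟨u, v, w, hu, hv, hw, rfl⟩ := h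
  rcases hu with rfl | ⟨a, rfl⟩ <;> rcases hv with rfl | ⟨b, rfl⟩ <;> rcases hw with rfl | ⟨c, rfl⟩
  · left; simp
  · left
    rw [expand]
    simp only [key]
    simp
  · left
    rw [expand]
    simp only [key]
    simp
  · left
    rw [expand]
    simp only [key]
    simp
    split_ifs <;> norm_num
  · left
    rw [expand]
    simp only [key]
    simp
  · left
    rw [expand]
    simp only [key]
    simp
    split_ifs <;> norm_num
  · by_cases hab : a = b
    · right; left
      subst hab
      refine ⟨a, ?_⟩
      rw [sub_zero, ← Pi.single_add]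
      norm_num
    · left
      rw [expand]
      simp only [key]
      simp [hab]
      norm_num
  · by_cases hab : a = b
    · subst hab
      by_cases hac : a = c
      · left
        subst hac
        rw [expand]
        simp only [key]
        simp
        norm_num
      · right; right
        refine ⟨a, c, hac, ?_⟩
        rw [← Pi.single_add]
        norm_num
    · left
      rw [expand]
      simp only [key]
      simp [hab]
      split_ifs <;> norm_num

/-- restriction of a row to all the columns but one -/
theorem rowT_restrict {k : ℕ} {ρ : Fin (k + 1) → ℝ} (h : RowT ρ) (c : Fin (k + 1)) :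
    RowT (fun j => ρ (c.succAbove j)) := by
  have hb : ∀ u : Fin (k + 1) → ℝ, Bit u → Bit (fun j => u (c.succAbove j)) := by
    rintro u (rfl | ⟨a, t, h0, h1, rfl⟩)
    · left; rfl
    · rcases Fin.eq_self_or_eq_succAbove c a with h | ⟨a', h⟩
      · left
        subst h
        ext j
        simp [Pi.single_eq_of_ne (Fin.succAbove_ne a j)]
      · right
        refine ⟨a', t, h0, h1, ?_⟩
        subst h
        ext j
        by_cases hj : j = a'
        · subst hj; simp
        · rw [Pi.single_eq_of_ne hj, Pi.single_eq_of_ne]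
          exact fun he => hj (Fin.succAbove_right_injective he)
  obtain ⟨u, v, w, hu, hv, hw, rfl⟩ := h
  exact ⟨_, _, _, hb u hu, hb v hv, hb w hw, rfl⟩

/-- the substitution `x_a = x_c / 2` -/
noncomputable def merge {k : ℕ} (c : Fin (k + 1)) (a : Fin k) (x : Fin (k + 1) → ℝ) : Fin k → ℝ :=
  fun j => if j = a then x (c.succAbove a) / 2 + x c else x (c.succAbove j)

theorem rowT_merge {k : ℕ} {ρ : Fin (k + 1) → ℝ} (h : RowT ρ) (c : Fin (k + 1)) (a : Fin k) :
    RowT (merge c a ρ) := by
  have hb : ∀ u : Fin (k + 1) → ℝ, Bit u → Bit (merge c a u) := by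
    rintro u (rfl | ⟨b, t, h0, h1, rfl⟩)
    · left
      ext j
      simp [merge]
    · right
      rcases Fin.eq_self_or_eq_succAbove c b with h | ⟨b', h⟩
      · subst h
        refine ⟨a, t, h0, h1, ?_⟩
        ext j
        by_cases hj : j = a
        · subst hj
          simp [merge, Pi.single_eq_of_ne (Fin.succAbove_ne b j)]
        · simp [merge, hj, Pi.single_eq_of_ne (Fin.succAbove_ne b j), Pi.single_eq_of_ne hj]
      · subst h
        by_cases hba : b' = a
        · subst hba
          refine ⟨b', t / 2, by linarith, by linarith, ?_⟩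
          ext j
          by_cases hj : j = b'
          · subst hj
            simp [merge, Pi.single_eq_of_ne (Fin.succAbove_ne c j).symm]
          · have h3 : c.succAbove j ≠ c.succAbove b' := fun he => hj (Fin.succAbove_right_injective he)
            simp [merge, hj, Pi.single_eq_of_ne hj, Pi.single_eq_of_ne h3]
        · refine ⟨b', t, h0, h1, ?_⟩
          ext j
          by_cases hj : j = a
          · subst hj
            have h3 : c.succAbove j ≠ c.succAbove b' :=
              fun he => hba (Fin.succAbove_right_injective he).symm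
            simp [merge, Pi.single_eq_of_ne (Ne.symm hba), Pi.single_eq_of_ne h3,
              Pi.single_eq_of_ne (Fin.succAbove_ne c b').symm]
          · by_cases hj2 : j = b'
            · subst hj2
              simp [merge, hj]
            · have h3 : c.succAbove j ≠ c.succAbove b' :=
                fun he => hj2 (Fin.succAbove_right_injective he)
              simp [merge, hj, Pi.single_eq_of_ne hj2, Pi.single_eq_of_ne h3]
  obtain ⟨u, v, w, hu, hv, hw, rfl⟩ := h
  refine ⟨_, _, _, hb u hu, hb v hv, hb w hw, ?_⟩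
  ext j
  by_cases hj : j = a
  · subst hj
    simp only [merge, if_true, Pi.add_apply, Pi.sub_apply]
    ring
  · simp only [merge, if_neg hj, Pi.add_apply, Pi.sub_apply]

/-- **The determinant bound.** A square matrix of size `k` with rows of the form `u + v - w`, where
`u, v, w` are `t e_a` with `0 ≤ t ≤ 1`, has a determinant of absolute value at most `2 ^ k`. -/
theorem det_bound : ∀ (k : ℕ) (M : Matrix (Fin k) (Fin k) ℝ), (∀ r, RowT (M r)) →
    |M.det| ≤ 2 ^ k := by
  intro k
  induction k with
  | zero => intro M _; simp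
  | succ k ih =>
    intro M0 hM0
    obtain ⟨M, hM, hV, hle⟩ := round_all Finset.univ M0 hM0
    refine hle.trans ?_
    by_cases hall : ∀ r, ∑ j, M r j ^ 2 ≤ 3
    · refine (hadamard M).trans ?_
      calc ∏ i, Real.sqrt (∑ j, M i j ^ 2) ≤ ∏ _i : Fin (k + 1), (2 : ℝ) := by
            refine Finset.prod_le_prod (fun i _ => Real.sqrt_nonneg _) fun i _ => ?_
            rw [Real.sqrt_le_left (by norm_num)]
            exact (hall i).trans (by norm_num)
        _ = 2 ^ (k + 1) := by simp
    · push Not at hall
      obtain ⟨r, hr⟩ := hall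
      rcases rowV_cases (hV r (Finset.mem_univ r)) with h | ⟨a, h⟩ | ⟨a, c, hac, h⟩
      · exact absurd h (not_le.2 hr)
      · rw [Matrix.det_succ_row M r, Finset.sum_eq_single a]
        · rw [h, abs_mul, abs_mul, abs_pow, abs_neg, abs_one, one_pow, one_mul, Pi.single_eq_same,
            abs_two, pow_succ']
          refine mul_le_mul_of_nonneg_left ?_ (by norm_num)
          exact ih _ fun i => rowT_restrict (hM _) a
        · intro j _ hj
          rw [h, Pi.single_eq_of_ne hj]
          simp
        · simp
      · rcases Fin.eq_self_or_eq_succAbove c a with h' | ⟨a', h'⟩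
        · exact absurd h' hac
        · subst h'
          -- the column operation
          have e1 : (M.updateCol (c.succAbove a')
              (fun i => M i (c.succAbove a') + (2 : ℝ) • M i c)).det = M.det :=
            Matrix.det_updateCol_add_smul_self M hac 2
          set A := M.updateCol (c.succAbove a')
              (fun i => M i (c.succAbove a') + (2 : ℝ) • M i c) with hA
          have hA1 : ∀ i, A i (c.succAbove a') = M i (c.succAbove a') + 2 * M i c := by
            intro i
            rw [hA, Matrix.updateCol_self]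
            simp
          have hA2 : ∀ i j, j ≠ c.succAbove a' → A i j = M i j := by
            intro i j hj
            rw [hA, Matrix.updateCol_ne hj]
          have hrow : ∀ j, j ≠ c → A r j = 0 := by
            intro j hj
            by_cases hj2 : j = c.succAbove a'
            · subst hj2
              rw [hA1, h]
              simp [Pi.single_eq_of_ne hac, Pi.single_eq_of_ne hac.symm]
            · rw [hA2 r j hj2, h]
              simp [Pi.single_eq_of_ne hj, Pi.single_eq_of_ne hj2]
          have hrc : A r c = -1 := by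
            rw [hA2 r c hac.symm, h]
            simp [Pi.single_eq_of_ne hac.symm]
          rw [← e1, Matrix.det_succ_row A r, Finset.sum_eq_single c]
          · rw [hrc, abs_mul, abs_mul, abs_pow, abs_neg, abs_one, one_pow, one_mul, one_mul]
            set N : Matrix (Fin k) (Fin k) ℝ := fun i => merge c a' (M (r.succAbove i)) with hN
            have e2 : A.submatrix r.succAbove c.succAbove =
                N.updateCol a' ((2 : ℝ) • fun i => N i a') := by
              ext i j
              by_cases hj : j = a'
              · subst hj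
                rw [Matrix.submatrix_apply, hA1, Matrix.updateCol_self]
                simp only [Pi.smul_apply, smul_eq_mul, hN, merge, if_true]
                ring
              · rw [Matrix.submatrix_apply, Matrix.updateCol_ne hj, hA2]
                · simp only [hN, merge, if_neg hj]
                · exact fun he => hj (Fin.succAbove_right_injective he)
            rw [e2, Matrix.det_updateCol_smul, Matrix.updateCol_eq_self, abs_mul, abs_two,
              pow_succ']
            refine mul_le_mul_of_nonneg_left ?_ (by norm_num)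
            exact ih _ fun i => rowT_merge (hM _) c a'
          · intro j _ hj
            rw [hrow j hj]
            simp
          · simp

end Pool.Agent.Hp21
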